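import Pool.Agent.helper15.DH.Spec

/-!
# Project dh, module QTR: the trivial lower bound for the double sum
-/

set_option autoImplicit false

open Complex MeasureTheory

namespace Pool.Agent.DH

open Pool.Agent.helper84.DM Pool.Agent.helper78.ED

theorem QTR_diag (Z : Finset ℂ) (x : ℕ) (hx : x ≠ 0) : RR Z (fun _ => 1) x x = (Z.card : ℂ) := by
  unfold RR
  have : ∀ ρ ∈ Z, (1 : ℂ) * ((x : ℂ) ^ (-((ρ.im : ℂ) * I)) * (x : ℂ) ^ ((ρ.im : ℂ) * I)) = 1 := by
    intro ρ _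
    have hx' : (x : ℂ) ≠ 0 := by exact_mod_cast hx
    rw [← Complex.cpow_add _ _ hx', neg_add_cancel, Complex.cpow_zero, one_mul]
  rw [Finset.sum_congr rfl this]
  simp

theorem QTR : QTR_stmt := by
  intro Z L
  unfold QQ
  have h1 : ∀ x ∈ IL L, (Z.card : ℝ) ^ 2 ≤ ∑ y ∈ IL L, ‖RR Z (fun _ => 1) x y‖ ^ 2 := by
    intro x hx
    have hx0 : x ≠ 0 := by
      unfold IL at hx
      rw [Finset.mem_Ioc] at hx
      omega
    calc (Z.card : ℝ) ^ 2 = ‖RR Z (fun _ => 1) x x‖ ^ 2 := by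
          rw [QTR_diag Z x hx0, Complex.norm_natCast]
      _ ≤ _ := Finset.single_le_sum (f := fun y => ‖RR Z (fun _ => 1) x y‖ ^ 2)
          (fun y _ => by positivity) hx
  calc (L : ℝ) * (Z.card : ℝ) ^ 2 ≤ ((IL L).card : ℝ) * (Z.card : ℝ) ^ 2 := by
        gcongr
        unfold IL
        rw [Nat.card_Ioc]
        omega
    _ = ∑ _x ∈ IL L, (Z.card : ℝ) ^ 2 := by
        rw [Finset.sum_const, nsmul_eq_mul]
    _ ≤ _ := Finset.sum_le_sum h1

end Pool.Agent.DH
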